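import Mathlib

/-!
# Row votes: the numbers
-/

set_option autoImplicit false

namespace Pool.Agent.Helper62.RV

theorem numeric (n a b c m : ℕ) (hn : 2 ^ 30 ≤ n) (ha : n ≤ 3 * a + 2) (hb : n ≤ 3 * b + 2)
    (hc : n ≤ 3 * c + 2) (ha' : a ≤ n) (hb' : b ≤ n) (hc' : c ≤ n) (hm : n ^ 5 ≤ m) (B : ℝ)
    (hB : 0 ≤ B)
    (h : ∀ ρ : ℝ, 0 < ρ → ρ < 1 / 2 → (1 - 1 / (a : ℝ)) / 2 ≤ 1 / 5 + 2 * (a * b * c / m) +
      2 * ((2 * B + a * b * c) / (a * b * c * Real.logb 2 (1 / (2 * ρ))) + 1 / (2 * ρ * √a))) :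
    (n : ℝ) ^ 3 * (Real.logb 2 n - 30) ≤ 1000 * B := by
  obtain ⟨N, hN⟩ : ∃ N : ℝ, N = n := ⟨_, rfl⟩
  obtain ⟨x, hx⟩ : ∃ x : ℝ, x = a := ⟨_, rfl⟩
  obtain ⟨y, hy⟩ : ∃ y : ℝ, y = b := ⟨_, rfl⟩
  obtain ⟨z, hz⟩ : ∃ z : ℝ, z = c := ⟨_, rfl⟩
  have hN1 : (2 : ℝ) ^ 30 ≤ N := by rw [hN]; exact_mod_cast hn
  have hx1 : N ≤ 3 * x + 2 := by rw [hN, hx]; exact_mod_cast ha
  have hy1 : N ≤ 3 * y + 2 := by rw [hN, hy]; exact_mod_cast hb
  have hz1 : N ≤ 3 * z + 2 := by rw [hN, hz]; exact_mod_cast hc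
  have hx2 : x ≤ N := by rw [hN, hx]; exact_mod_cast ha'
  have hy2 : y ≤ N := by rw [hN, hy]; exact_mod_cast hb'
  have hz2 : z ≤ N := by rw [hN, hz]; exact_mod_cast hc'
  have hm1 : N ^ 5 ≤ (m : ℝ) := by rw [hN]; exact_mod_cast hm
  rw [← hN]
  rw [← hx, ← hy, ← hz] at h
  have hN2 : (1073741824 : ℝ) ≤ N := by norm_num at hN1; exact hN1
  have hx3 : N * (100 / 303) ≤ x := by linarith
  have hy3 : N * (100 / 303) ≤ y := by linarith
  have hz3 : N * (100 / 303) ≤ z := by linarith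
  have hN0 : 0 < N := by linarith
  have hx0 : 0 < x := by linarith
  have hy0 : 0 < y := by linarith
  have hz0 : 0 < z := by linarith
  -- the square root
  obtain ⟨S, hS⟩ : ∃ S : ℝ, S = √x := ⟨_, rfl⟩
  have hS2 : S * S = x := by rw [hS]; exact Real.mul_self_sqrt hx0.le
  have hS0 : 0 < S := by rw [hS]; exact Real.sqrt_pos.2 hx0
  have hS1 : 10000 ≤ S := by
    by_contra hcon
    push Not at hcon
    nlinarith
  -- the logarithms
  obtain ⟨l, hl⟩ : ∃ l : ℝ, l = Real.logb 2 N := ⟨_, rfl⟩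
  have hl30 : 30 ≤ l := by
    rw [hl, Real.le_logb_iff_rpow_le (by norm_num) hN0]
    exact_mod_cast hN1
  have h303 : Real.logb 2 (303 / 100) ≤ 8 / 5 := by
    have h1 : Real.logb 2 ((303 / 100 : ℝ) ^ 5) ≤ Real.logb 2 ((2 : ℝ) ^ 8) :=
      Real.logb_le_logb_of_le (by norm_num) (by norm_num) (by norm_num)
    rw [Real.logb_pow, Real.logb_pow, Real.logb_self_eq_one (by norm_num)] at h1
    push_cast at h1
    linarith
  have h40 : Real.logb 2 40 ≤ 16 / 3 := by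
    have h1 : Real.logb 2 ((40 : ℝ) ^ 3) ≤ Real.logb 2 ((2 : ℝ) ^ 16) :=
      Real.logb_le_logb_of_le (by norm_num) (by norm_num) (by norm_num)
    rw [Real.logb_pow, Real.logb_pow, Real.logb_self_eq_one (by norm_num)] at h1
    push_cast at h1
    linarith
  have hlx : l - 8 / 5 ≤ Real.logb 2 x := by
    have h1 : Real.logb 2 (N / (303 / 100)) ≤ Real.logb 2 x :=
      Real.logb_le_logb_of_le (by norm_num) (by positivity) (by
        have : N / (303 / 100) = N * (100 / 303) := by ring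
        rw [this]; exact hx3)
    rw [Real.logb_div hN0.ne' (by norm_num), ← hl] at h1
    linarith
  have hlS : 2 * Real.logb 2 S = Real.logb 2 x := by
    rw [← hS2, Real.logb_mul hS0.ne' hS0.ne']
    ring
  obtain ⟨L, hL⟩ : ∃ L : ℝ, L = Real.logb 2 (S / 40) := ⟨_, rfl⟩
  have hL1 : l / 2 - 4 / 5 - 16 / 3 ≤ L := by
    rw [hL, Real.logb_div hS0.ne' (by norm_num)]
    linarith
  have hL0 : 0 < L := by linarith
  -- the hypothesis
  have h1 := h (20 / S) (by positivity) (by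
    rw [div_lt_iff₀ hS0]; linarith)
  have e1 : 1 / (2 * (20 / S)) = S / 40 := by field_simp; norm_num
  have e2 : 2 * (20 / S) * √x = 40 := by rw [← hS]; field_simp; norm_num
  rw [e1, e2, ← hL] at h1
  obtain ⟨X, hX⟩ : ∃ X : ℝ, X = x * y * z := ⟨_, rfl⟩
  rw [← hX] at h1
  have hX0 : 0 < X := by rw [hX]; positivity
  have hXN : X ≤ N ^ 3 := by
    rw [hX]
    calc x * y * z ≤ N * N * N := by gcongr
      _ = N ^ 3 := by ring
  have hXl : N ^ 3 * (1000000 / 27818127) ≤ X := by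
    rw [hX]
    calc N ^ 3 * (1000000 / 27818127) = (N * (100 / 303)) * (N * (100 / 303)) * (N * (100 / 303)) := by
          ring
      _ ≤ x * y * z := by gcongr
  have hm0 : 0 < (m : ℝ) := lt_of_lt_of_le (by positivity) hm1
  have hXm : X / m ≤ 1 / 1000000 := by
    rw [div_le_iff₀ hm0]
    have h2 : N ^ 3 * 1000000 ≤ N ^ 5 := by
      have h3 : (1000000 : ℝ) ≤ N ^ 2 := by nlinarith
      calc N ^ 3 * 1000000 ≤ N ^ 3 * N ^ 2 := by gcongr
        _ = N ^ 5 := by ring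
    linarith
  have hxi : 1 / x ≤ 1 / 1000000 := by
    apply one_div_le_one_div_of_le (by norm_num)
    linarith
  have h2 : 12495 / 100000 ≤ (2 * B + X) / (X * L) := by linarith
  rw [le_div_iff₀ (by positivity)] at h2
  -- the end
  obtain ⟨q, hq⟩ : ∃ q : ℝ, q = 12495 / 100000 * (l / 2 - 4 / 5 - 16 / 3) - 1 := ⟨_, rfl⟩
  have hq0 : 0 ≤ q := by rw [hq]; linarith
  have h3 : X * q ≤ 2 * B := by
    have h4 : X * (l / 2 - 4 / 5 - 16 / 3) ≤ X * L := by gcongr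
    rw [hq]
    linarith
  have h5 : N ^ 3 * (1000000 / 27818127) * q ≤ X * q := by gcongr
  have h6 : l - 30 ≤ 500 * ((1000000 / 27818127) * q) := by rw [hq]; linarith
  have hN3 : 0 ≤ N ^ 3 := by positivity
  have h7 : N ^ 3 * (l - 30) ≤ N ^ 3 * (500 * ((1000000 / 27818127) * q)) := by gcongr
  rw [← hl]
  linarith

end Pool.Agent.Helper62.RV
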