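import Pool.Agent.Helper62.EV.Infl

/-!
# Row votes: the sum of the influences
-/

set_option autoImplicit false

namespace Pool.Agent.Helper62.RV

theorem infl {ι X : Type*} [Fintype ι] [DecidableEq ι] [Fintype X] [Nonempty X] (c : ℝ)
    (g : ι → X → ℝ) :
    ∑ i, ∑ w : ι → X, ∑ u : X, (if c + ∑ j, g j (w j) ≤ 0 ∧
      0 < c + ∑ j, g j (Function.update w i u j) then (1:ℝ) else 0)
      ≤ Real.sqrt (Fintype.card ι) / 2 * (Fintype.card X : ℝ) ^ (Fintype.card ι + 1) :=
  Pool.Agent.Helper62.EV.infl g c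

end Pool.Agent.Helper62.RV
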